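import Pool.Agent.Helper34.CAR.GoalsC

/-!
Packet CAR5-TAFE (MP_d97caa_an): tracial rank zero of the fixed point algebras when `E` is not `0`.
-/

set_option autoImplicit false

open scoped ComplexOrder ZeroAtInfty
open TopologicalSpace

namespace Pool.Agent.Helper87.CAR

open Pool.Agent.Helper34.CAR Pool.Agent.Helper39.Uct Pool.Agent.Helper39.CR

noncomputable section

open Classical in
/-- The projection onto the non-core indices. -/
def PP {B : Type} [CStarAlgebra B] {θ : B →⋆ₐ[ℂ] B} (s : Sys B θ) (k m : ℕ) : s.A (k + m) :=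
  Mt.of fun x y => if x = y ∧ ¬ core s k m x then 1 else 0

open Classical in
/-- The partial isometry given by `φ` on the core indices. -/
def WW {B : Type} [CStarAlgebra B] {θ : B →⋆ₐ[ℂ] B} (s : Sys B θ) (k m : ℕ)
    (φ : s.S (k + m) → s.S (k + m)) : s.A (k + m) :=
  Mt.of fun x y => if x = φ y ∧ core s k m y then 1 else 0

section

variable {B : Type} [CStarAlgebra B] {θ : B →⋆ₐ[ℂ] B} (s : Sys B θ)

theorem push_mem {n k : ℕ} {a : s.A k} (h : a ∈ grd B (wz s n k)) (m : ℕ) :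
    s.push k m a ∈ grd B (wz s n (k + m)) := by
  induction m with
  | zero => exact h
  | succ m ih => exact κ_mem s n (k + m) _ ih

theorem ι_push {L : Type} [CStarAlgebra L] {ι : ∀ i, s.A i →⋆ₐ[ℂ] L} (hL : IsLim s L ι) (k : ℕ)
    (a : s.A k) (m : ℕ) : ι (k + m) (s.push k m a) = ι k a := by
  induction m with
  | zero => rfl
  | succ m ih => exact (hL.comp (k + m) _).trans ih

theorem exists_desc (k : ℕ) (p : s.S k) (m : ℕ) : ∃ x, desc s k p m x := by
  induction m with
  | zero => exact ⟨p, rfl⟩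
  | succ m ih =>
    obtain ⟨x, hx⟩ := ih
    refine ⟨(s.e (k + m)).symm (x, s.c1 (k + m)), ?_⟩
    change desc s k p m (s.e (k + m) ((s.e (k + m)).symm (x, s.c1 (k + m)))).1
    rw [Equiv.apply_symm_apply]
    exact hx

open Classical in
theorem PP_mul (k m : ℕ) (M : s.A (k + m)) (x y : s.S (k + m)) :
    (PP s k m * M) x y = if core s k m x then 0 else M x y := by
  rw [Mt.mul_apply]
  rw [Finset.sum_eq_single x]
  · simp only [PP, Mt.of_apply]
    by_cases h : core s k m x <;> simp [h]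
  · intro z _ hz
    simp only [PP, Mt.of_apply]
    rw [if_neg (fun h => hz h.1.symm), zero_mul]
  · intro h
    exact absurd (Finset.mem_univ _) h

open Classical in
theorem mul_PP (k m : ℕ) (M : s.A (k + m)) (x y : s.S (k + m)) :
    (M * PP s k m) x y = if core s k m y then 0 else M x y := by
  rw [Mt.mul_apply]
  rw [Finset.sum_eq_single y]
  · simp only [PP, Mt.of_apply]
    by_cases h : core s k m y <;> simp [h]
  · intro z _ hz
    simp only [PP, Mt.of_apply]
    rw [if_neg (fun h => hz h.1), mul_zero]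
  · intro h
    exact absurd (Finset.mem_univ _) h

theorem PP_graded (n k m : ℕ) : PP s k m ∈ grd B (wz s n (k + m)) := by
  intro x y h
  simp only [PP, Mt.of_apply]
  rw [if_neg]
  rintro ⟨rfl, _⟩
  exact h rfl

open Classical in
theorem PP_star (k m : ℕ) : star (PP s k m) = PP s k m := by
  ext x y
  rw [Mt.star_apply]
  simp only [PP, Mt.of_apply]
  by_cases h : x = y
  · subst h
    split_ifs <;> simp
  · rw [if_neg (fun h' => h h'.1.symm), if_neg (fun h' => h h'.1), star_zero]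

open Classical in
theorem PP_idem (k m : ℕ) : PP s k m * PP s k m = PP s k m := by
  ext x y
  rw [PP_mul]
  simp only [PP, Mt.of_apply]
  split_ifs with h1 h2 h2
  · exact absurd h1 h2.2
  all_goals rfl

theorem WW_graded {n k m : ℕ} {φ : s.S (k + m) → s.S (k + m)}
    (h : ∀ x, core s k m x → wz s n (k + m) (φ x) = wz s n (k + m) x) :
    WW s k m φ ∈ grd B (wz s n (k + m)) := by
  intro x y hxy
  simp only [WW, Mt.of_apply]
  rw [if_neg]
  rintro ⟨rfl, hc⟩
  exact hxy (h y hc)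

open Classical in
theorem WW_star_mul {k m : ℕ} {φ : s.S (k + m) → s.S (k + m)}
    (h : ∀ x y, core s k m x → core s k m y → φ x = φ y → x = y) :
    star (WW s k m φ) * WW s k m φ + PP s k m = 1 := by
  ext x y
  rw [Mt.add_apply, Mt.mul_apply, Mt.one_apply]
  simp only [Mt.star_apply, WW, PP, Mt.of_apply]
  by_cases hx : core s k m x
  · rw [Finset.sum_eq_single (φ x)]
    · by_cases hy : core s k m y
      · by_cases hxy : x = y
        · subst hxy
          simp [hx]
        · have h1 : φ x ≠ φ y := fun h' => hxy (h x y hx hy h')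
          simp [hx, hxy, h1]
      · have hxy : x ≠ y := fun h' => hy (h' ▸ hx)
        simp [hx, hy, hxy]
    · intro z _ hz
      rw [if_neg (fun h' => hz h'.1), star_zero, zero_mul]
    · intro h'
      exact absurd (Finset.mem_univ _) h'
  · rw [Finset.sum_eq_zero]
    · simp [hx]
    · intro z _
      rw [if_neg (fun h' => hx h'.2), star_zero, zero_mul]

open Classical in
theorem push_mul_WW (hCORE : S_CORE) {k m : ℕ} (p : s.S k) {φ : s.S (k + m) → s.S (k + m)}
    (h : ∀ x, core s k m x → desc s k p m (φ x)) :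
    s.push k m (Mt.single p p 1) * WW s k m φ = WW s k m φ := by
  obtain ⟨_, h2⟩ := hCORE B θ s k m
  ext x y
  rw [Mt.mul_apply]
  rw [Finset.sum_eq_single (φ y)]
  · simp only [WW, Mt.of_apply]
    by_cases hy : core s k m y
    · by_cases hx : x = φ y
      · rw [(h2 p x (φ y)).1 (by rw [hx]; exact h y hy) hx]
        simp [hx, hy]
      · rw [(h2 p x (φ y)).2 (fun h' => hx h'.2)]
        simp [hx]
    · simp [hy]
  · intro z _ hz
    simp only [WW, Mt.of_apply]
    rw [if_neg (fun h' => hz h'.1), mul_zero]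
  · intro h'
    exact absurd (Finset.mem_univ _) h'

theorem corner (k : ℕ) (p : s.S k) (M : s.A k) (h : M p p = 1) :
    star (Mt.single p p 1 : s.A k) * M * Mt.single p p 1 = Mt.single p p 1 := by
  rw [Mt.star_single, star_one]
  ext x y
  rw [Mt.mul_apply, Finset.sum_eq_single p]
  · rw [Mt.mul_apply, Finset.sum_eq_single p]
    · rw [Mt.single_apply, Mt.single_apply, Mt.single_apply, h]
      by_cases h1 : x = p <;> by_cases h2 : y = p <;> simp [h1, h2]
    · intro z _ hz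
      rw [Mt.single_apply, if_neg (fun h' => hz h'.2), zero_mul]
    · intro h'
      exact absurd (Finset.mem_univ _) h'
  · intro z _ hz
    rw [Mt.single_apply, if_neg (fun h' => hz h'.1), mul_zero]
  · intro h'
    exact absurd (Finset.mem_univ _) h'

/-- Graded scalar matrices supported on the non-core indices. -/
def TT (n k m : ℕ) (a : s.A (k + m)) : Prop :=
  a ∈ grd B (wz s n (k + m)) ∧ (∀ x y, core s k m x ∨ core s k m y → a x y = 0) ∧
    ∀ x y, ∃ c : ℂ, a x y = algebraMap ℂ B c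

theorem TT_PP (n k m : ℕ) : TT s n k m (PP s k m) := by
  refine ⟨PP_graded s n k m, fun x y h => ?_, fun x y => ?_⟩
  · simp only [PP, Mt.of_apply]
    rw [if_neg]
    rintro ⟨rfl, h'⟩
    rcases h with h | h <;> exact h' h
  · simp only [PP, Mt.of_apply]
    split_ifs
    · exact ⟨1, (map_one _).symm⟩
    · exact ⟨0, (map_zero _).symm⟩

open Classical in
theorem TT_comp (hCORE : S_CORE) {n k m : ℕ} {a : s.A k} (ha : a ∈ grd B (wz s n k)) :
    TT s n k m (PP s k m * s.push k m a * PP s k m) := by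
  have h1 := (hCORE B θ s k m).1 a
  have h2 : ∀ x y, (PP s k m * s.push k m a * PP s k m) x y =
      if core s k m y then 0 else if core s k m x then 0 else s.push k m a x y := by
    intro x y
    rw [mul_PP, PP_mul]
  refine ⟨fun x y h => ?_, fun x y h => ?_, fun x y => ?_⟩
  · rw [h2]
    by_cases hy : core s k m y
    · rw [if_pos hy]
    · rw [if_neg hy]
      by_cases hx : core s k m x
      · rw [if_pos hx]
      · rw [if_neg hx]
        exact push_mem s ha m x y h
  · rw [h2]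
    rcases h with h | h <;> simp [h]
  · rw [h2]
    split_ifs with h3 h4
    · exact ⟨0, (map_zero _).symm⟩
    · exact ⟨0, (map_zero _).symm⟩
    · exact (h1 x y).2 h4 h3

open Classical in
theorem PP_comm (hCORE : S_CORE) (k m : ℕ) (a : s.A k) :
    PP s k m * s.push k m a = s.push k m a * PP s k m := by
  have h1 := (hCORE B θ s k m).1 a
  ext x y
  rw [PP_mul, mul_PP]
  by_cases hx : core s k m x <;> by_cases hy : core s k m y
  · simp [hx, hy]
  · rw [if_pos hx, if_neg hy]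
    exact ((h1 x y).1 (by tauto)).symm
  · rw [if_neg hx, if_pos hy]
    exact (h1 x y).1 (by tauto)
  · simp [hx, hy]

end

/-- The finite-dimensional subalgebra. -/
def CC {B : Type} [CStarAlgebra B] {θ : B →⋆ₐ[ℂ] B} (s : Sys B θ) {L : Type} [CStarAlgebra L]
    (ι : ∀ i, s.A i →⋆ₐ[ℂ] L) (γ : CircleAction L) (Z : Set Circle) (n k m : ℕ) :
    NonUnitalStarSubalgebra ℂ (Fix γ Z) where
  carrier := {h | ∃ a, TT s n k m a ∧ ι (k + m) a = (h : L)}
  add_mem' := by
    rintro h h' ⟨a, ⟨ha1, ha2, ha3⟩, ha⟩ ⟨b, ⟨hb1, hb2, hb3⟩, hb⟩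
    refine ⟨a + b, ⟨add_mem ha1 hb1, fun x y hxy => ?_, fun x y => ?_⟩, ?_⟩
    · rw [Mt.add_apply, ha2 x y hxy, hb2 x y hxy, add_zero]
    · obtain ⟨c, hc⟩ := ha3 x y
      obtain ⟨d, hd⟩ := hb3 x y
      exact ⟨c + d, by rw [Mt.add_apply, hc, hd, map_add]⟩
    · rw [map_add, ha, hb]
      rfl
  zero_mem' := by
    refine ⟨0, ⟨zero_mem _, fun x y _ => rfl, fun x y => ⟨0, (map_zero _).symm⟩⟩, ?_⟩
    rw [map_zero]
    rfl
  mul_mem' := by
    rintro h h' ⟨a, ⟨ha1, ha2, ha3⟩, ha⟩ ⟨b, ⟨hb1, hb2, hb3⟩, hb⟩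
    refine ⟨a * b, ⟨mul_mem ha1 hb1, fun x y hxy => ?_, fun x y => ?_⟩, ?_⟩
    · rw [Mt.mul_apply]
      refine Finset.sum_eq_zero fun z _ => ?_
      rcases hxy with hx | hy
      · rw [ha2 x z (Or.inl hx), zero_mul]
      · rw [hb2 z y (Or.inr hy), mul_zero]
    · choose c hc using ha3
      choose d hd using hb3
      refine ⟨∑ z, c x z * d z y, ?_⟩
      rw [Mt.mul_apply, map_sum]
      refine Finset.sum_congr rfl fun z _ => ?_
      rw [hc, hd, map_mul]
    · rw [map_mul, ha, hb]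
      rfl
  smul_mem' := by
    rintro c h ⟨a, ⟨ha1, ha2, ha3⟩, ha⟩
    refine ⟨c • a, ⟨SMulMemClass.smul_mem c ha1, fun x y hxy => ?_, fun x y => ?_⟩, ?_⟩
    · rw [Mt.smul_apply, ha2 x y hxy, smul_zero]
    · obtain ⟨d, hd⟩ := ha3 x y
      exact ⟨c * d, by rw [Mt.smul_apply, hd, map_mul, Algebra.smul_def]⟩
    · rw [map_smul, ha]
      rfl
  star_mem' := by
    rintro h ⟨a, ⟨ha1, ha2, ha3⟩, ha⟩
    refine ⟨star a, ⟨star_mem ha1, fun x y hxy => ?_, fun x y => ?_⟩, ?_⟩
    · rw [Mt.star_apply, ha2 y x hxy.symm, star_zero]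
    · obtain ⟨d, hd⟩ := ha3 y x
      exact ⟨star d, by rw [Mt.star_apply, hd, ← algebraMap_star_comm]⟩
    · rw [map_star, ha]
      rfl

theorem fd_CC {B : Type} [CStarAlgebra B] {θ : B →⋆ₐ[ℂ] B} (s : Sys B θ) {L : Type}
    [CStarAlgebra L] (ι : ∀ i, s.A i →⋆ₐ[ℂ] L) (γ : CircleAction L) (Z : Set Circle)
    (n k m : ℕ) : FiniteDimensional ℂ (CC s ι γ Z n k m) := by
  let Ψ : (s.S (k + m) → s.S (k + m) → ℂ) →ₗ[ℂ] L :=
    { toFun := fun f => ι (k + m) (Mt.scal f)
      map_add' := fun f g => by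
        rw [← map_add]
        congr 1
        ext x y
        rw [Mt.add_apply, Mt.scal_apply, Mt.scal_apply, Mt.scal_apply, ← map_add]
        rfl
      map_smul' := fun c f => by
        rw [RingHom.id_apply, ← map_smul]
        congr 1
        ext x y
        rw [Mt.smul_apply, Mt.scal_apply, Mt.scal_apply]
        change algebraMap ℂ B (c * f x y) = c • algebraMap ℂ B (f x y)
        rw [map_mul, Algebra.smul_def] }
  let f : CC s ι γ Z n k m →ₗ[ℂ] LinearMap.range Ψ :=
    { toFun := fun h => ⟨((h : Fix γ Z) : L), by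
        obtain ⟨a, ⟨_, _, ha3⟩, ha⟩ := h.2
        choose c hc using ha3
        refine ⟨c, ?_⟩
        rw [← ha]
        change ι (k + m) (Mt.scal c) = ι (k + m) a
        congr 1
        ext x y
        rw [Mt.scal_apply, hc]⟩
      map_add' := fun _ _ => rfl
      map_smul' := fun _ _ => rfl }
  refine FiniteDimensional.of_injective f fun h h' hh => ?_
  have h1 : ((f h : LinearMap.range Ψ) : L) = ((f h' : LinearMap.range Ψ) : L) := by rw [hh]
  exact Subtype.ext (Subtype.ext h1)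

theorem norm_proj_le {H : Type} [CStarAlgebra H] {p : H} (h1 : star p = p) (h2 : p * p = p) :
    ‖p‖ ≤ 1 := by
  have h3 : ‖star p * p‖ = ‖p‖ * ‖p‖ := CStarRing.norm_star_mul_self
  rw [h1, h2] at h3
  by_contra hc
  push Not at hc
  nlinarith

/-- The main construction. -/
theorem taf (hCORE : S_CORE) (hCNT : S_CNT) {B : Type} [CStarAlgebra B] [Nontrivial B]
    {θ : B →⋆ₐ[ℂ] B} (s : Sys B θ) (hbig : ∀ N, ∃ i ≥ N, 4 ≤ Fintype.card (s.C i)) {L : Type}
    [CStarAlgebra L] (ι : ∀ i, s.A i →⋆ₐ[ℂ] L) (hL : IsLim s L ι) (γ : CircleAction L)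
    (Z : Set Circle) (n : ℕ) (hn : 1 ≤ n) (hF : FixD s ι γ Z n)
    (hEPP : ∀ a : Fix γ Z, a ≠ 0 → ∃ (k : ℕ) (p : s.S k) (y : Fix γ Z),
      ((star (a * y) * (a * y) : Fix γ Z) : L) = ι k (Mt.single p p 1)) : IsTAF (Fix γ Z) := by
  intro S a ε ha hε
  obtain ⟨k₀, p₀, y₀, h₀⟩ := hEPP a ha
  -- a common stage
  have hev : ∀ x ∈ S, ∀ᶠ k in Filter.atTop, ∃ b ∈ grd B (wz s n k),
      ‖((x : Fix γ Z) : L) - ι k b‖ < ε / 2 := by
    intro x _
    obtain ⟨i, b, hb, hb'⟩ := hF.2 x.1 x.2 (ε / 2) (by linarith)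
    rw [Filter.eventually_atTop]
    refine ⟨i, fun k hk => ?_⟩
    obtain ⟨d, rfl⟩ := Nat.exists_eq_add_of_le hk
    exact ⟨s.push i d b, push_mem s hb d, by rw [ι_push s hL]; exact hb'⟩
  have hev' := (Filter.eventually_all_finset S).2 hev
  obtain ⟨k, p₁, hk, h₁⟩ : ∃ (k : ℕ) (p₁ : s.S k), (∀ x ∈ S, ∃ b ∈ grd B (wz s n k),
      ‖((x : Fix γ Z) : L) - ι k b‖ < ε / 2) ∧
      star (ι k (Mt.single p₁ p₁ 1)) * ι k₀ (Mt.single p₀ p₀ 1) *
      ι k (Mt.single p₁ p₁ 1) = ι k (Mt.single p₁ p₁ 1) := by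
    obtain ⟨k, hk, hkk₀⟩ := (hev'.and (Filter.eventually_ge_atTop k₀)).exists
    obtain ⟨d, rfl⟩ := Nat.exists_eq_add_of_le hkk₀
    obtain ⟨p₁, hp₁⟩ := exists_desc s k₀ p₀ d
    refine ⟨k₀ + d, p₁, hk, ?_⟩
    rw [← ι_push s hL k₀ (Mt.single p₀ p₀ 1) d, ← map_star, ← map_mul, ← map_mul]
    congr 1
    exact corner s (k₀ + d) p₁ _ (((hCORE B θ s k₀ d).2 p₀ p₁ p₁).1 hp₁ rfl)
  have hq₁ : (Mt.single p₁ p₁ 1 : s.A k) ∈ grd B (wz s n k) := single_mem_grd B _ p₁ 1
  obtain ⟨m, φ, hφ1, hφ2, x₀, hx₀⟩ := hCNT B θ s n k p₁ hn hbig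
  have hW : WW s k m φ ∈ grd B (wz s n (k + m)) := WW_graded s fun x hx => (hφ1 x hx).2
  have hP : PP s k m ∈ grd B (wz s n (k + m)) := PP_graded s n k m
  let q₁ : Fix γ Z := ⟨ι k (Mt.single p₁ p₁ 1), hF.1 _ _ hq₁⟩
  let w : Fix γ Z := ⟨ι (k + m) (WW s k m φ), hF.1 _ _ hW⟩
  let p : Fix γ Z := ⟨ι (k + m) (PP s k m), hF.1 _ _ hP⟩
  have hpn : ‖(p : L)‖ ≤ 1 := by
    apply norm_proj_le
    · change star (ι (k + m) (PP s k m)) = ι (k + m) (PP s k m)
      rw [← map_star, PP_star]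
    · change ι (k + m) (PP s k m) * ι (k + m) (PP s k m) = ι (k + m) (PP s k m)
      rw [← map_mul, PP_idem]
  refine ⟨CC s ι γ Z n k m, p, y₀ * q₁ * w, fd_CC s ι γ Z n k m,
    ⟨PP s k m, TT_PP s n k m, rfl⟩, ?_, ?_, ?_, ?_⟩
  · intro h
    have h2 : ι (k + m) (PP s k m) = 0 := congrArg Subtype.val h
    have h3 : PP s k m = 0 := hL.inj (k + m) (by rw [h2, map_zero])
    have h4 : PP s k m x₀ x₀ = 0 := by rw [h3]; rfl
    simp only [PP, Mt.of_apply] at h4
    rw [if_pos ⟨rfl, hx₀⟩] at h4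
    exact one_ne_zero h4
  · rintro c ⟨b, ⟨_, hb2, _⟩, hb⟩
    apply Subtype.ext
    change ι (k + m) (PP s k m) * (c : L) = c
    rw [← hb, ← map_mul]
    congr 1
    ext x y
    rw [PP_mul]
    split_ifs with h
    · exact (hb2 x y (Or.inl h)).symm
    · rfl
  · intro x hx
    obtain ⟨b, hb, hb'⟩ := hk x hx
    have hι : ι (k + m) (s.push k m b) = ι k b := ι_push s hL k b m
    have hcomm : (p : L) * ι k b = ι k b * (p : L) := by
      change ι (k + m) (PP s k m) * ι k b = ι k b * ι (k + m) (PP s k m)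
      rw [← hι, ← map_mul, ← map_mul, PP_comm s hCORE]
    constructor
    · change ‖(p : L) * (x : L) - (x : L) * (p : L)‖ < ε
      have e1 : (p : L) * (x : L) - (x : L) * (p : L) =
          (p : L) * ((x : L) - ι k b) - ((x : L) - ι k b) * (p : L) := by
        rw [mul_sub, sub_mul, hcomm]
        abel
      rw [e1]
      have e2 : ‖(p : L) * ((x : L) - ι k b)‖ ≤ ‖(x : L) - ι k b‖ :=
        (norm_mul_le _ _).trans (by
          calc _ ≤ 1 * ‖(x : L) - ι k b‖ := mul_le_mul_of_nonneg_right hpn (norm_nonneg _)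
            _ = _ := one_mul _)
      have e3 : ‖((x : L) - ι k b) * (p : L)‖ ≤ ‖(x : L) - ι k b‖ :=
        (norm_mul_le _ _).trans (by
          calc _ ≤ ‖(x : L) - ι k b‖ * 1 := mul_le_mul_of_nonneg_left hpn (norm_nonneg _)
            _ = _ := mul_one _)
      calc _ ≤ ‖(p : L) * ((x : L) - ι k b)‖ + ‖((x : L) - ι k b) * (p : L)‖ := norm_sub_le _ _
        _ < ε := by linarith
    · have hT := TT_comp s hCORE (m := m) hb
      refine ⟨⟨ι (k + m) (PP s k m * s.push k m b * PP s k m), hF.1 _ _ hT.1⟩,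
        ⟨_, hT, rfl⟩, ?_⟩
      change ‖(p : L) * (x : L) * (p : L) -
        ι (k + m) (PP s k m * s.push k m b * PP s k m)‖ < ε
      rw [map_mul, map_mul, hι]
      have e1 : (p : L) * (x : L) * (p : L) - ι (k + m) (PP s k m) * ι k b *
          ι (k + m) (PP s k m) = (p : L) * ((x : L) - ι k b) * (p : L) := by
        change (p : L) * (x : L) * (p : L) - (p : L) * ι k b * (p : L) = _
        rw [mul_sub, sub_mul]
      rw [e1]
      have e2 : ‖(p : L) * ((x : L) - ι k b)‖ ≤ ‖(x : L) - ι k b‖ :=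
        (norm_mul_le _ _).trans (by
          calc _ ≤ 1 * ‖(x : L) - ι k b‖ := mul_le_mul_of_nonneg_right hpn (norm_nonneg _)
            _ = _ := one_mul _)
      calc _ ≤ ‖(p : L) * ((x : L) - ι k b)‖ * ‖(p : L)‖ := norm_mul_le _ _
        _ ≤ ‖(p : L) * ((x : L) - ι k b)‖ * 1 :=
            mul_le_mul_of_nonneg_left hpn (norm_nonneg _)
        _ < ε := by linarith
  · have key : ((p + star (a * (y₀ * q₁ * w)) * (a * (y₀ * q₁ * w)) : Fix γ Z) : L) = 1 := by
      change ι (k + m) (PP s k m) + star ((a : L) * ((y₀ : L) * (q₁ : L) * (w : L))) *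
        ((a : L) * ((y₀ : L) * (q₁ : L) * (w : L))) = 1
      have h0' : star ((a : L) * (y₀ : L)) * ((a : L) * (y₀ : L)) =
        ι k₀ (Mt.single p₀ p₀ 1) := h₀
      have e1 : star ((a : L) * ((y₀ : L) * (q₁ : L) * (w : L))) *
          ((a : L) * ((y₀ : L) * (q₁ : L) * (w : L))) =
          star (w : L) * (star (q₁ : L) * (star ((a : L) * (y₀ : L)) * ((a : L) * (y₀ : L))) *
            (q₁ : L)) * (w : L) := by
        simp only [star_mul, mul_assoc]
      rw [e1, h0']
      have e2 : star (q₁ : L) * ι k₀ (Mt.single p₀ p₀ 1) * (q₁ : L) =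
        ι k (Mt.single p₁ p₁ 1) := h₁
      rw [e2, ← ι_push s hL k _ m]
      change ι (k + m) (PP s k m) + star (ι (k + m) (WW s k m φ)) *
        ι (k + m) (s.push k m (Mt.single p₁ p₁ 1)) * ι (k + m) (WW s k m φ) = 1
      rw [mul_assoc, ← map_mul, push_mul_WW s hCORE p₁ fun x hx => (hφ1 x hx).1, ← map_star,
        ← map_mul, ← map_add, add_comm (PP s k m), WW_star_mul s hφ2, map_one]
    intro b
    constructor
    · apply Subtype.ext
      change ((p + star (a * (y₀ * q₁ * w)) * (a * (y₀ * q₁ * w)) : Fix γ Z) : L) * (b : L) = b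
      rw [key, one_mul]
    · apply Subtype.ext
      change (b : L) * ((p + star (a * (y₀ * q₁ * w)) * (a * (y₀ * q₁ * w)) : Fix γ Z) : L) = b
      rw [key, mul_one]

theorem tafe (hCORE : S_CORE) (hCNT : S_CNT) (hEPP : S_EPP) (hBIG : S_BIG) (hESS : S_ESS) :
    S_TAFE := by
  intro E _ hE s hm L _ ι hL γ Z n hn hF
  have hnt : Nontrivial (Unitization ℂ C₀(ℝ, E)) := by
    refine ⟨⟨1, 0, fun h => ?_⟩⟩
    have h1 : (1 : Unitization ℂ C₀(ℝ, E)).fst = (0 : Unitization ℂ C₀(ℝ, E)).fst := by rw [h]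
    rw [Unitization.fst_one, Unitization.fst_zero] at h1
    exact one_ne_zero h1
  have hX : ∃ x : C₀(ℝ, E), x ≠ 0 := by
    obtain ⟨x, hx⟩ := hESS E hE 1 one_ne_zero
    refine ⟨x, fun h => hx ?_⟩
    rw [h, one_mul, Unitization.inr_zero]
  exact taf hCORE hCNT s (hBIG _ _ s hm hX) ι hL γ Z n hn hF
    (hEPP E hE s hm L ι hL γ Z n hF)

end

end Pool.Agent.Helper87.CAR
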